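import Pool.Agent.W78.GM.Basic
import Pool.Agent.H970R2.X.Mom

/-! Project GM (helper78), task GM-M (helper83): mean values `S_LS → S_LAT → S_MOMP`. -/

set_option autoImplicit false

namespace Pool.Agent.W83.GM

open Finset Filter
open Pool.Agent.H376R2.MR Pool.Agent.H970R2.X Pool.Agent.W78.GM
open GaussianInt (toComplex)

/-- the product of the chosen primes above the prime factors of `n` -/
noncomputable def ZZ (n : ℕ) : GaussianInt := (n.primeFactorsList.map gp).prod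

lemma prod_gp_eq {ℓ : ℕ} (p : Fin ℓ → ℕ) (hp : ∀ i, (p i).Prime) :
    ∏ i, gp (p i) = ZZ (∏ i, p i) := by
  have h1 : (List.ofFn p).prod = ∏ i, p i := List.prod_ofFn
  have h2 : ∀ q ∈ List.ofFn p, q.Prime := by
    intro q hq
    rw [List.mem_ofFn] at hq
    obtain ⟨i, rfl⟩ := hq
    exact hp i
  have h3 : (List.ofFn p).Perm ((∏ i, p i).primeFactorsList) :=
    Nat.primeFactorsList_unique h1 h2
  unfold ZZ
  rw [← (h3.map gp).prod_eq, List.map_ofFn, List.prod_ofFn]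
  rfl

lemma mem_cellP1 {H v p : ℕ} (hp : p ∈ cellP (P1 4) H v) : p.Prime ∧ p % 4 = 1 := by
  classical
  unfold cellP at hp
  rw [mem_filter] at hp
  unfold cell at hp
  rw [mem_filter] at hp
  refine ⟨hp.1.2.1, ?_⟩
  have := hp.2
  unfold P1 at this
  simpa using this

lemma ps_one (k : ℤ) : ps k 1 = 1 := by
  have := ps_natCast (c := 1) one_pos k
  simpa using this

lemma ps_prod {ι : Type*} (s : Finset ι) (f : ι → GaussianInt) (k : ℤ) :
    ps k (∏ i ∈ s, f i) = ∏ i ∈ s, ps k (f i) := by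
  classical
  induction s using Finset.induction_on with
  | empty => simp [ps_one]
  | insert a s ha ih => rw [Finset.prod_insert ha, Finset.prod_insert ha, ps_mul, ih]

lemma nm_prod {ι : Type*} (s : Finset ι) (f : ι → GaussianInt) :
    nm (∏ i ∈ s, f i) = ∏ i ∈ s, nm (f i) := by
  classical
  induction s using Finset.induction_on with
  | empty => simp
  | insert a s ha ih => rw [Finset.prod_insert ha, Finset.prod_insert ha, nm_mul, ih]

/-- products of the chosen primes are primitive -/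
lemma prim_prod {ι : Type*} (s : Finset ι) (p : ι → ℕ)
    (hp : ∀ i ∈ s, (p i).Prime ∧ p i % 4 = 1) : prim (∏ i ∈ s, gp (p i)) := by
  classical
  induction s using Finset.induction_on with
  | empty => simp [prim]
  | insert a s ha ih =>
    rw [Finset.prod_insert ha]
    have hpa := hp a (Finset.mem_insert_self a s)
    have ih' := ih fun i hi => hp i (Finset.mem_insert_of_mem hi)
    have hnm := gp_nm hpa.1 hpa.2
    have hne2 : p a ≠ 2 := by
      intro h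
      have := hpa.2
      rw [h] at this
      norm_num at this
    rw [prim_mul_iff hpa.1 hne2 hnm ih']
    intro hd
    have hst : Prime (star (gp (p a))) := prime_of_nm hpa.1 (by rw [nm_star]; exact hnm)
    rw [Prime.dvd_finsetProd_iff hst] at hd
    obtain ⟨i, hi, hdi⟩ := hd
    have hpi := hp i (Finset.mem_insert_of_mem hi)
    have h1 := nm_dvd hdi
    rw [nm_star, hnm, gp_nm hpi.1 hpi.2] at h1
    have h2 := (Nat.prime_dvd_prime_iff_eq hpa.1 hpi.1).1 h1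
    rw [← h2] at hdi
    have h3 := not_dvd_star hpa.1 hne2 (π := star (gp (p a))) (by rw [nm_star]; exact hnm)
    rw [star_star] at h3
    exact h3 hdi

/-- the coefficient of `z` in `PG^ℓ` -/
noncomputable def cP (H r ℓ : ℕ) (z : GaussianInt) : ℂ :=
  (ge (cellP (P1 4) H r) ℓ (nm z) : ℂ) / (nm z : ℂ)

/-- the index tuples -/
noncomputable def TT (H r ℓ : ℕ) : Finset (Fin ℓ → ℕ) :=
  Fintype.piFinset (fun _ : Fin ℓ => cellP (P1 4) H r)

/-- the support in `ℕ` -/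
noncomputable def SN (H r ℓ : ℕ) : Finset ℕ := (TT H r ℓ).image (fun p => ∏ i, p i)

lemma SN_props {H r ℓ n : ℕ} (hn : n ∈ SN H r ℓ) :
    nm (ZZ n) = n ∧ prim (ZZ n) ∧ 0 < n ∧ (r : ℝ) * ℓ / H ≤ Real.log n ∧
      Real.log n ≤ ((r : ℝ) + 1) * ℓ / H := by
  unfold SN at hn
  rw [Finset.mem_image] at hn
  obtain ⟨p, hp, rfl⟩ := hn
  have hsub := xmom_pi_sub (P1 4) H r ℓ hp
  have hp' : ∀ i, p i ∈ cellP (P1 4) H r := by
    unfold TT at hp
    rwa [Fintype.mem_piFinset] at hp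
  have hpr : ∀ i, (p i).Prime ∧ p i % 4 = 1 := fun i => mem_cellP1 (hp' i)
  have h1 := prod_gp_eq p fun i => (hpr i).1
  refine ⟨?_, ?_, mom_prod_pos hsub, (mom_prod_log hsub).1, (mom_prod_log hsub).2⟩
  · rw [← h1, nm_prod]
    apply Finset.prod_congr rfl
    intro i _
    exact gp_nm (hpr i).1 (hpr i).2
  · rw [← h1]
    exact prim_prod _ p fun i _ => hpr i

/-- the support in the Gaussian integers -/
noncomputable def SZ (H r ℓ : ℕ) : Finset GaussianInt := (SN H r ℓ).image ZZ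

lemma ZZ_inj (H r ℓ : ℕ) : Set.InjOn ZZ (SN H r ℓ : Set ℕ) := by
  intro m hm n hn h
  have h1 := (SN_props (Finset.mem_coe.1 hm)).1
  have h2 := (SN_props (Finset.mem_coe.1 hn)).1
  rw [← h1, ← h2, h]

lemma PG_pow (H r ℓ : ℕ) (k : ℤ) : PG H r k ^ ℓ = DPG (SZ H r ℓ) (cP H r ℓ) k := by
  have h1 : PG H r k ^ ℓ = ∑ p ∈ TT H r ℓ,
      ps k (ZZ (∏ i, p i)) / ((∏ i, p i : ℕ) : ℂ) := by
    unfold PG TT
    rw [Finset.sum_pow']
    apply Finset.sum_congr rfl
    intro p hp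
    rw [Fintype.mem_piFinset] at hp
    rw [← prod_gp_eq p fun i => (mem_cellP1 (hp i)).1, ps_prod, Finset.prod_div_distrib]
    push_cast
    rfl
  rw [h1]
  unfold DPG SZ
  rw [Finset.sum_image (ZZ_inj H r ℓ)]
  unfold SN
  rw [← Finset.sum_fiberwise_of_maps_to (g := fun p : Fin ℓ → ℕ => ∏ i, p i)
    (t := (TT H r ℓ).image (fun p => ∏ i, p i))
    (fun p hp => Finset.mem_image_of_mem _ hp)]
  apply Finset.sum_congr rfl
  intro n hn
  have hnn := (SN_props hn).1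
  unfold cP
  rw [hnn]
  unfold ge
  rw [Finset.sum_congr rfl (g := fun _ => ps k (ZZ n) / (n : ℂ))]
  · rw [Finset.sum_const, nsmul_eq_mul]
    unfold TT
    ring
  · intro p hp
    rw [Finset.mem_filter] at hp
    rw [hp.2]

theorem momP_of (hLS : S_LS) : ∃ C : ℝ, 1 ≤ C ∧ ∀ H r ℓ K : ℕ, 1 ≤ H → 1 ≤ K →
    (K : ℝ) ≤ Real.exp ((r : ℝ) * ℓ / H) →
    ∑ k ∈ FK K, ‖PG H r k‖ ^ (2 * ℓ) ≤ C ^ (ℓ + 1) * (ℓ.factorial : ℝ) := by
  obtain ⟨C, hC, hls⟩ := hLS
  refine ⟨2 * C + 6, by linarith, ?_⟩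
  intro H r ℓ K hH hK hKe
  have hHpos : (0 : ℝ) < H := by exact_mod_cast hH
  set A : ℝ := Real.exp ((r : ℝ) * ℓ / H) with hA
  set B : ℝ := Real.exp (((r : ℝ) + 1) * ℓ / H) with hB
  have hA1 : (1 : ℝ) ≤ A := Real.one_le_exp (by positivity)
  have hAB : A ≤ B := by
    apply Real.exp_le_exp.2
    gcongr
    linarith
  have hA0 : 0 < A := by linarith
  have hB0 : 0 < B := by linarith
  have hmem : ∀ n ∈ SN H r ℓ, A ≤ (n : ℝ) ∧ (n : ℝ) ≤ B := by
    intro n hn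
    obtain ⟨_, _, h0, h1, h2⟩ := SN_props hn
    have h0' : (0 : ℝ) < n := by exact_mod_cast h0
    exact ⟨(Real.le_log_iff_exp_le h0').1 h1, (Real.log_le_iff_le_exp h0').1 h2⟩
  have hs : ∀ z ∈ SZ H r ℓ, prim z ∧ (nm z : ℝ) ≤ B := by
    intro z hz
    unfold SZ at hz
    rw [Finset.mem_image] at hz
    obtain ⟨n, hn, rfl⟩ := hz
    have h1 := SN_props hn
    refine ⟨h1.2.1, ?_⟩
    rw [h1.1]
    exact (hmem n hn).2
  have hm := hls B K (SZ H r ℓ) (cP H r ℓ) (hA1.trans hAB) hK hs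
  have hsum : ∑ z ∈ SZ H r ℓ, ‖cP H r ℓ z‖ ^ 2 ≤ 1 / A * ((ℓ.factorial : ℝ) * 2 ^ ℓ) := by
    unfold SZ
    rw [Finset.sum_image (ZZ_inj H r ℓ)]
    calc ∑ n ∈ SN H r ℓ, ‖cP H r ℓ (ZZ n)‖ ^ 2
        ≤ ∑ n ∈ SN H r ℓ, 1 / A * ((ge (cell H r) ℓ n : ℝ) ^ 2 / n) := by
          apply Finset.sum_le_sum
          intro n hn
          have hn1 := (hmem n hn).1
          have hnpos : (0 : ℝ) < n := by linarith
          have hge : (ge (cellP (P1 4) H r) ℓ n : ℝ) ≤ (ge (cell H r) ℓ n : ℝ) := by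
            exact_mod_cast xmom_ge_le (P1 4) H r ℓ n
          unfold cP
          rw [(SN_props hn).1, norm_div, Complex.norm_natCast, Complex.norm_natCast]
          calc ((ge (cellP (P1 4) H r) ℓ n : ℝ) / n) ^ 2
              ≤ ((ge (cell H r) ℓ n : ℝ) / n) ^ 2 := by gcongr
            _ = 1 / n * ((ge (cell H r) ℓ n : ℝ) ^ 2 / n) := by
                field_simp
            _ ≤ 1 / A * ((ge (cell H r) ℓ n : ℝ) ^ 2 / n) := by gcongr
      _ = 1 / A * ∑ n ∈ SN H r ℓ, ((ge (cell H r) ℓ n : ℝ) ^ 2 / n) := by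
          rw [Finset.mul_sum]
      _ ≤ 1 / A * ((ℓ.factorial : ℝ) * 2 ^ ℓ) := by
          have := sum_ge_sq H r ℓ hH (SN H r ℓ)
          gcongr
  have hBA : B / A ≤ 3 ^ ℓ := by
    rw [hA, hB, ← Real.exp_sub]
    have h1 : ((r : ℝ) + 1) * ℓ / H - (r : ℝ) * ℓ / H = ℓ / H := by ring
    rw [h1]
    have h2 : (ℓ : ℝ) / H ≤ ℓ := by
      rw [div_le_iff₀ hHpos]
      have : (1 : ℝ) ≤ H := by exact_mod_cast hH
      nlinarith [(Nat.cast_nonneg ℓ : (0 : ℝ) ≤ ℓ)]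
    calc Real.exp ((ℓ : ℝ) / H) ≤ Real.exp (ℓ : ℝ) := Real.exp_le_exp.2 h2
      _ = Real.exp 1 ^ ℓ := by rw [← Real.exp_nat_mul, mul_one]
      _ ≤ 3 ^ ℓ := by
          have := Real.exp_one_lt_three
          gcongr
  calc ∑ k ∈ FK K, ‖PG H r k‖ ^ (2 * ℓ) = ∑ k ∈ FK K, ‖DPG (SZ H r ℓ) (cP H r ℓ) k‖ ^ 2 := by
        apply Finset.sum_congr rfl
        intro k _
        rw [← PG_pow, norm_pow, ← pow_mul, mul_comm]
    _ ≤ _ := hm
    _ ≤ C * (B + B) * (1 / A * ((ℓ.factorial : ℝ) * 2 ^ ℓ)) := by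
        have hKB : (K : ℝ) ≤ B := hKe.trans hAB
        gcongr
    _ = 2 * C * (B / A) * 2 ^ ℓ * (ℓ.factorial : ℝ) := by
        field_simp
        ring
    _ ≤ 2 * C * 3 ^ ℓ * 2 ^ ℓ * (ℓ.factorial : ℝ) := by gcongr
    _ = 2 * C * 6 ^ ℓ * (ℓ.factorial : ℝ) := by
        rw [mul_assoc (2 * C), ← mul_pow]
        norm_num
    _ ≤ (2 * C + 6) * (2 * C + 6) ^ ℓ * (ℓ.factorial : ℝ) := by
        gcongr <;> linarith
    _ = (2 * C + 6) ^ (ℓ + 1) * (ℓ.factorial : ℝ) := by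
        rw [pow_succ]
        ring

/-! ### the mean value of `GA` -/

lemma bg_nonneg (Z : ℝ) (z : GaussianInt) : 0 ≤ bg Z z := by
  unfold bg
  have := mom_w_nonneg (Real.log (nm z) - Real.log Z)
  positivity

lemma bg_le (Z : ℝ) (z : GaussianInt) : bg Z z ≤ 1 / nm z := by
  unfold bg
  have := mom_w_le_one (Real.log (nm z) - Real.log Z)
  gcongr

lemma bg_ne {Z : ℝ} {z : GaussianInt} (h : bg Z z ≠ 0) :
    0 < nm z ∧ Real.log Z - 1 ≤ Real.log (nm z) ∧ Real.log (nm z) ≤ Real.log Z + 1 := by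
  have : bw Z (nm z) ≠ 0 := h
  exact mom_bw_ne this

lemma g_norm {g : GaussianInt → ℤ} (hb : BddG g) (z : GaussianInt) : ‖(g z : ℂ)‖ ≤ 1 := by
  have h := hb z
  rw [Complex.norm_intCast]
  exact_mod_cast h

lemma coef_norm {g : GaussianInt → ℤ} (hb : BddG g) (Z : ℝ) (z : GaussianInt) :
    ‖(g z : ℂ) * (bg Z z : ℂ)‖ ≤ 1 / nm z := by
  rw [norm_mul, Complex.norm_real, Real.norm_of_nonneg (bg_nonneg Z z)]
  calc ‖(g z : ℂ)‖ * bg Z z ≤ 1 * bg Z z :=
        mul_le_mul_of_nonneg_right (g_norm hb z) (bg_nonneg Z z)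
    _ = bg Z z := one_mul _
    _ ≤ 1 / nm z := bg_le Z z

lemma GA_filter (g : GaussianInt → ℤ) (Z : ℝ) (k : ℤ) :
    GA g Z k = DPG ((pball (Real.exp 1 * Z)).filter (fun z => bg Z z ≠ 0))
      (fun z => (g z : ℂ) * (bg Z z : ℂ)) k := by
  unfold GA DPG
  rw [Finset.sum_filter_of_ne]
  intro n _ hn h0
  apply hn
  simp only [h0]
  simp

/-- the number of Gaussian integers in a ball -/
lemma card_ball_le (hLAT : S_LAT) : ∃ C : ℝ, 0 < C ∧ ∀ X : ℝ, 1 ≤ X → ((ball X).card : ℝ) ≤ C * X := by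
  obtain ⟨C, hC, h1, _⟩ := hLAT
  refine ⟨C + 4, by linarith, ?_⟩
  intro X hX
  have h := (abs_le.1 (h1 X hX)).2
  have hs : Real.sqrt X ≤ X := by
    rw [Real.sqrt_le_left (by linarith)]
    nlinarith
  have hpi := Real.pi_lt_four
  have h2 : C * Real.sqrt X ≤ C * X := by gcongr
  nlinarith

theorem mom0_of (hLS : S_LS) (hLAT : S_LAT) (g : GaussianInt → ℤ) (hb : BddG g) :
    ∃ C : ℝ, 0 < C ∧ ∀ (K : ℕ) (Z : ℝ), 3 ≤ Z → 1 ≤ K →
    ∑ k ∈ FK K, ‖GA g Z k‖ ^ 2 ≤ C * (1 + (K : ℝ) / Z) := by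
  obtain ⟨C, hC, hls⟩ := hLS
  obtain ⟨C', hC', hcard⟩ := card_ball_le hLAT
  set e := Real.exp 1 with he
  have he0 : 0 < e := Real.exp_pos 1
  have he1 : 1 ≤ e := Real.one_le_exp zero_le_one
  refine ⟨C * C' * e ^ 4, by positivity, ?_⟩
  intro K Z hZ hK
  have hZ0 : 0 < Z := by linarith
  have heZ : 1 ≤ e * Z := by nlinarith
  set t := (pball (e * Z)).filter (fun z => bg Z z ≠ 0) with ht
  have hmem : ∀ z ∈ t, prim z ∧ Z / e ≤ (nm z : ℝ) ∧ (nm z : ℝ) ≤ e * Z := by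
    intro z hz
    rw [ht, Finset.mem_filter, mem_pball] at hz
    obtain ⟨h0, h1, h2⟩ := bg_ne hz.2
    have hpos : (0 : ℝ) < nm z := by exact_mod_cast h0
    refine ⟨hz.1.1, ?_, hz.1.2⟩
    rw [← Real.log_le_log_iff (by positivity) hpos, Real.log_div hZ0.ne' he0.ne', he,
      Real.log_exp]
    exact h1
  have hm := hls (e * Z) K t (fun z => (g z : ℂ) * (bg Z z : ℂ)) heZ hK
    fun z hz => ⟨(hmem z hz).1, (hmem z hz).2.2⟩
  have htcard : (t.card : ℝ) ≤ C' * (e * Z) := by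
    refine le_trans ?_ (hcard (e * Z) heZ)
    have : t.card ≤ (ball (e * Z)).card := by
      calc t.card ≤ (pball (e * Z)).card := Finset.card_filter_le _ _
        _ ≤ (ball (e * Z)).card := by
          unfold pball
          exact Finset.card_filter_le _ _
    exact_mod_cast this
  have hsum : ∑ z ∈ t, ‖(g z : ℂ) * (bg Z z : ℂ)‖ ^ 2 ≤ C' * (e * Z) * (e / Z) ^ 2 := by
    calc ∑ z ∈ t, ‖(g z : ℂ) * (bg Z z : ℂ)‖ ^ 2 ≤ ∑ _z ∈ t, (e / Z) ^ 2 := by
          apply Finset.sum_le_sum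
          intro z hz
          have hn1 := (hmem z hz).2.1
          have hze : 0 < Z / e := by positivity
          have hnpos : (0 : ℝ) < nm z := by linarith
          have hinv : 1 / (nm z : ℝ) ≤ e / Z := by
            rw [div_le_div_iff₀ hnpos hZ0, one_mul]
            rw [div_le_iff₀ he0] at hn1
            linarith
          calc ‖(g z : ℂ) * (bg Z z : ℂ)‖ ^ 2 ≤ (1 / (nm z : ℝ)) ^ 2 := by
                gcongr
                exact coef_norm hb Z z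
            _ ≤ (e / Z) ^ 2 := by gcongr
      _ = t.card * (e / Z) ^ 2 := by rw [Finset.sum_const, nsmul_eq_mul]
      _ ≤ C' * (e * Z) * (e / Z) ^ 2 := by gcongr
  calc ∑ k ∈ FK K, ‖GA g Z k‖ ^ 2
      = ∑ k ∈ FK K, ‖DPG t (fun z => (g z : ℂ) * (bg Z z : ℂ)) k‖ ^ 2 := by
        apply Finset.sum_congr rfl
        intro k _
        rw [GA_filter]
    _ ≤ _ := hm
    _ ≤ C * (K + e * Z) * (C' * (e * Z) * (e / Z) ^ 2) := by gcongr
    _ = C * C' * e ^ 3 * (e + K / Z) := by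
        field_simp
        ring
    _ ≤ C * C' * e ^ 3 * (e + e * (K / Z)) := by
        gcongr
        have : (0 : ℝ) ≤ K / Z := by positivity
        nlinarith
    _ = C * C' * e ^ 4 * (1 + K / Z) := by ring

/-- the deliverable of GM-M -/
theorem momp_of : S_LS → S_LAT → S_MOMP := fun hLS hLAT =>
  ⟨fun g hb => mom0_of hLS hLAT g hb, momP_of hLS⟩

end Pool.Agent.W83.GM
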